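import Pool.Agent.VMX.StmtsA

/-! # VMX, row FMC: consequences of the face lemma. -/

set_option autoImplicit false

open Matrix Filter Topology

namespace Pool.Agent.VMX.H5

open Pool.Agent.PFS Pool.Agent.PFJ Pool.Agent.NBT Pool.Agent.VMX

variable {n K : ℕ} {C : Set (V n)} {Γ : Subgroup (GL (Fin n) ℝ)}

theorem fS_notMem {z : Fin K → V n} (hz : PES C z) {A : Finset (Fin K)}
    (hA : ∃ i, i ∉ A) : fS z A ∉ C := by
  classical
  obtain ⟨i, hi⟩ := hA
  have h1 := hz.bd (fun i => if i ∈ A then 1 else 0) (fun i => by split_ifs <;> norm_num)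
    ⟨i, if_neg hi⟩
  have h2 : ∑ i, (if i ∈ A then (1 : ℝ) else 0) • z i = fS z A := by
    unfold fS
    simp [Finset.sum_ite_mem]
  rwa [h2] at h1

theorem notMem_of_le (h : PCone C) {x y : V n} {M : ℝ} (hM : 0 < M)
    (h1 : M • y - x ∈ closure C) (hy : y ∉ C) : x ∉ C := by
  intro hx
  apply hy
  rw [← h.smul_iff hM]
  exact h.mem_of_le hx h1

theorem fS_mono (h : PCone C) {z : Fin K → V n} (hz : ∀ i, z i ∈ closure C)
    {A B : Finset (Fin K)} (hAB : A ⊆ B) : fS z B - fS z A ∈ closure C := by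
  rw [← fS_add_sdiff z hAB, add_sub_cancel_left]
  exact fS_cl h hz _

theorem fS_compl (z : Fin K → V n) {p m : Fin K} (hpm : p ≠ m) :
    fS z {m}ᶜ = z p + fS z {p, m}ᶜ := by
  have h1 : ({m}ᶜ : Finset (Fin K)) = insert p ({p, m}ᶜ : Finset (Fin K)) := by
    ext i
    simp only [Finset.mem_compl, Finset.mem_singleton, Finset.mem_insert]
    constructor
    · intro hi
      by_cases hip : i = p
      · exact Or.inl hip
      · exact Or.inr (by rintro (h | h); exacts [hip h, hi h])
    · rintro (rfl | hi)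
      · exact hpm
      · exact fun h => hi (Or.inr h)
  unfold fS
  rw [h1, Finset.sum_insert]
  simp

theorem fS_upd_compl (z : Fin K → V n) (x : V n) {p m : Fin K} (hpm : p ≠ m) :
    fS (Function.update z p x) {m}ᶜ = x + fS z {p, m}ᶜ := by
  rw [fS_compl _ hpm, fS_update z p x (by simp), Function.update_self]

theorem upd_sum (z : Fin K → V n) (x : V n) (p : Fin K) :
    ∑ i, Function.update z p x i = x + fS z {p}ᶜ := by
  have h1 := fS_add_compl (Function.update z p x) {p}
  rw [fS_single, Function.update_self, fS_update z p x (by simp)] at h1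
  exact h1.symm

theorem fS_lam (hC : CC C Γ) {z : Fin K → V n} (hz : IsPES C Γ z) {I : Finset (Fin K)}
    (hI : I.Nonempty) (hI' : Iᶜ.Nonempty) : fS z I ∈ LamC C Γ ∧ fS z I ∉ C := by
  classical
  have hnot : fS z I ∉ C := by
    obtain ⟨i, hi⟩ := hI'
    exact fS_notMem hz.1 ⟨i, Finset.mem_compl.1 hi⟩
  have hhull : ∀ J : Finset (Fin K), J.Nonempty → fS z J ∈ Hull C Γ := by
    intro J hJ
    induction hJ using Finset.Nonempty.cons_induction with
    | singleton a =>
      rw [fS_single]
      exact hC.hul.lamHull _ (hz.2 a)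
    | cons a s ha hs ih =>
      unfold fS
      rw [Finset.sum_cons]
      exact hC.hul.add _ (hC.hul.lamHull _ (hz.2 a)) _ ih
  refine ⟨?_, hnot⟩
  refine H37.cloF n C Γ hC (fun _ => fS z I) (fS z I) (fun _ => hhull I hI)
    tendsto_const_nhds hnot ?_
  intro h0
  have h1 := fS_add_compl z I
  rw [h0, zero_add] at h1
  obtain ⟨i, hi⟩ := hI
  have h2 : fS z Iᶜ ∉ C := fS_notMem hz.1 ⟨i, by simpa using hi⟩
  rw [h1] at h2
  exact h2 hz.1.sum_mem

theorem part1 (hFMI : FmiStmt) (hC : CC C Γ) (h3 : 3 ≤ K) (hmax : MaxCard C Γ K)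
    {z : Fin K → V n} (hz : IsPES C Γ z) (j : Fin K) (q : V n) (hq : q ∈ LamC C Γ)
    (hm : ∀ m, m ≠ j → q + fS z {m}ᶜ ∉ C) : ∃ a : ℝ, 0 < a ∧ q = a • z j := by
  obtain ⟨M, hM, h1⟩ := hFMI n C Γ hC K h3 hmax z hz {j} (Finset.singleton_nonempty j) q hq
    (fun m hmj => hm m (fun h => hmj (Finset.mem_singleton.2 h)))
  rw [fS_single] at h1
  have hqcl := hC.hul.lamCl q hq
  obtain ⟨c, hc⟩ := exv n C Γ hC K (by omega) hmax z hz j q hqcl M h1
  refine ⟨c, ?_, hc⟩
  by_contra hcon
  push Not at hcon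
  have h2 : -q ∈ closure C := by
    rw [hc, ← neg_smul]
    exact hC.cl_smul (hz.1.cl j) (by linarith)
  exact hC.hul.lamNe q hq (hC.salient q hqcl h2)

theorem part2 (hFMI : FmiStmt) (hC : CC C Γ) (h3 : 3 ≤ K) (hmax : MaxCard C Γ K)
    {z : Fin K → V n} {p : Fin K} (hz : IsPES C Γ z) (x : V n) (I : Finset (Fin K))
    (hx : IsPES C Γ (Function.update z p x)) (hp : p ∈ I) :
    Dm C x (fS z I) ↔ ∀ m, m ∉ I → x + z p + fS z {p, m}ᶜ ∉ C := by
  have key : ∀ m, m ∉ I → x + z p + fS z {p, m}ᶜ = x + fS z {m}ᶜ := by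
    intro m hm
    have hpm : p ≠ m := fun h => hm (h ▸ hp)
    rw [fS_compl z hpm, add_assoc]
  constructor
  · rintro ⟨M, hM, h1⟩ m hm
    rw [key m hm]
    have h2 : fS z {m}ᶜ - fS z I ∈ closure C := fS_mono hC.toPCone hz.1.cl (by
      intro i hi
      rw [Finset.mem_compl, Finset.mem_singleton]
      rintro rfl
      exact hm hi)
    refine notMem_of_le hC.toPCone (M := M + 1) (by linarith) ?_
      (fS_notMem hz.1 (A := {m}ᶜ) ⟨m, by simp⟩)
    have h4 : (M + 1) • fS z {m}ᶜ - (x + fS z {m}ᶜ) =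
        M • (fS z {m}ᶜ - fS z I) + (M • fS z I - x) := by
      rw [add_smul, one_smul, smul_sub]; abel
    rw [h4]
    exact hC.cl_add (hC.cl_smul h2 hM.le) h1
  · intro h
    refine hFMI n C Γ hC K h3 hmax z hz I ⟨p, hp⟩ x ?_ ?_
    · have := hx.2 p
      rwa [Function.update_self] at this
    · intro m hm
      rw [← key m hm]
      exact h m hm

theorem fmc (hFMI : FmiStmt) : FmcStmt := by
  classical
  intro n C Γ hC K h3 hmax z p hz
  refine ⟨fun j q hq hm => part1 hFMI hC h3 hmax hz j q hq hm,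
    fun x I hx hp => part2 hFMI hC h3 hmax hz x I hx hp, ?_, ?_, ?_, ?_,
    fun I hI hI' => fS_lam hC hz hI hI'⟩
  · intro x I hx hp hD
    have h1 := (part2 hFMI hC h3 hmax hz x I hx hp).1 hD
    refine hFMI n C Γ hC K h3 hmax _ hx I ⟨p, hp⟩ (z p) (hz.2 p) ?_
    intro m hm
    have hpm : p ≠ m := fun h => hm (h ▸ hp)
    rw [fS_upd_compl z x hpm, ← add_assoc, add_comm (z p) x]
    exact h1 m hm
  · rintro x y I hp ⟨M, hM, h1⟩ ⟨M', hM', h2⟩
    refine ⟨M' * (M + 1), by positivity, ?_⟩
    have h4 : fS (Function.update z p x) I = x + fS z (I.erase p) := by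
      unfold fS
      rw [← Finset.add_sum_erase I _ hp, Function.update_self]
      refine congrArg (fun t => x + t) (Finset.sum_congr rfl fun i hi => ?_)
      rw [Function.update_of_ne (Finset.ne_of_mem_erase hi)]
    rw [h4] at h2
    have h5 : fS z I - fS z (I.erase p) ∈ closure C :=
      fS_mono hC.toPCone hz.1.cl (Finset.erase_subset p I)
    have h6 : (M' * (M + 1)) • fS z I - y =
        M' • (M • fS z I - x) + M' • (fS z I - fS z (I.erase p)) +
          (M' • (x + fS z (I.erase p)) - y) := by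
      rw [mul_add, mul_one, add_smul, smul_sub, smul_sub, smul_add, smul_smul]; abel
    rw [h6]
    exact hC.cl_add (hC.cl_add (hC.cl_smul h1 hM'.le) (hC.cl_smul h5 hM'.le)) h2
  · rintro j h hjp hcl hne ⟨M, hM, h1⟩ hnm hout
    have hjp' : p ≠ j := fun e => hjp e.symm
    have hpair : fS z {p, j} = z p + z j := fS_pair z hjp'
    have hlam : z p + z j ∈ LamC C Γ := by
      rw [← hpair]
      refine (fS_lam hC hz ⟨p, by simp⟩ ?_).1
      rw [← Finset.card_pos, Finset.card_compl, Fintype.card_fin, Finset.card_pair hjp']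
      omega
    have hhl : h ∈ LamC C Γ :=
      H37.flmF n C Γ hC (M • (z p + z j)) (hC.hul.lamSmul _ hlam M hM) h hcl hne h1
    -- the sums without a vertex
    have hm : ∀ m, m ≠ p → m ≠ j → h + fS z {m}ᶜ ∉ C := by
      intro m hmp hmj
      have h2 : fS z {m}ᶜ - fS z {p, j} ∈ closure C := fS_mono hC.toPCone hz.1.cl (by
        intro i hi
        rw [Finset.mem_compl, Finset.mem_singleton]
        rintro rfl
        rcases Finset.mem_insert.1 hi with hi | hi
        · exact hmp hi
        · exact hmj (Finset.mem_singleton.1 hi))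
      rw [hpair] at h2
      refine notMem_of_le hC.toPCone (M := M + 1) (by linarith) ?_
        (fS_notMem hz.1 (A := {m}ᶜ) ⟨m, by simp⟩)
      have h4 : (M + 1) • fS z {m}ᶜ - (h + fS z {m}ᶜ) =
          M • (fS z {m}ᶜ - (z p + z j)) + (M • (z p + z j) - h) := by
        rw [add_smul, one_smul, smul_sub]; abel
      rw [h4]
      exact hC.cl_add (hC.cl_smul h2 hM.le) h1
    have hsum : h + fS z {p}ᶜ ∈ C := by
      by_contra hcon
      obtain ⟨a, -, ha⟩ := part1 hFMI hC h3 hmax hz j h hhl (by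
        intro m hmj
        by_cases hmp : m = p
        · rw [hmp]; exact hcon
        · exact hm m hmp hmj)
      exact hnm a ha
    refine ⟨H60.crt n C hC.toPCone (Fin K) _ ?_ ?_ ?_, ?_⟩
    · intro i
      by_cases hi : i = p
      · rw [hi, Function.update_self]; exact hcl
      · rw [Function.update_of_ne hi]; exact hz.1.cl i
    · rw [upd_sum]; exact hsum
    · intro i
      rw [← Finset.compl_singleton]
      change fS (Function.update z p h) {i}ᶜ ∉ C
      by_cases hip : i = p
      · rw [hip, fS_update z p h (by simp)]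
        exact fS_notMem hz.1 ⟨p, by simp⟩
      · have hpi : p ≠ i := fun e => hip e.symm
        rw [fS_upd_compl z h hpi]
        by_cases hij : i = j
        · rw [hij]; exact hout
        · have h5 := hm i hip hij
          refine notMem_of_le hC.toPCone (M := 1) one_pos ?_ h5
          rw [one_smul, fS_compl z hpi]
          have h6 : h + (z p + fS z {p, i}ᶜ) - (h + fS z {p, i}ᶜ) = z p := by abel
          rw [h6]
          exact hz.1.cl p
    · intro i
      by_cases hi : i = p
      · rw [hi, Function.update_self]; exact hhl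
      · rw [Function.update_of_ne hi]; exact hz.2 i
  · intro q q' hq hq' hl
    have h1 := part1 hFMI hC h3 hmax hq p q' (by
      have := hq'.2 p
      rwa [Function.update_self] at this) (by
      intro m hmp
      have hpm : p ≠ m := fun e => hmp e.symm
      rw [fS_upd_compl z q hpm, ← add_assoc, add_comm q' q]
      exact hl m hmp)
    rwa [Function.update_self] at h1

end Pool.Agent.VMX.H5
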